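import Pool.Agent.Helper896.MO.Fix

/-!
Library Helper896.MO (helper896): from almost all scales to logarithmic averages.
-/

set_option autoImplicit false

namespace Pool.Agent.Helper896.MO

open Finset Filter Topology
open Pool.Agent.Y958.U (LZ)
open Pool.Agent.Helper896.MA

lemma abel (a : ℕ → ℂ) (X : ℕ) : ∑ n ∈ Icc 1 X, a n / n = (∑ n ∈ Icc 1 X, a n) / (X + 1) +
    ∑ N ∈ Icc 1 X, (∑ n ∈ Icc 1 N, a n) / (N * (N + 1)) := by
  induction X with
  | zero => simp
  | succ X ih =>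
    rw [sum_Icc_succ_top (by omega), ih, sum_Icc_succ_top (by omega) (fun N => (∑ n ∈ Icc 1 N, a n) / (N * (N + 1))),
      sum_Icc_succ_top (by omega) a]
    have h1 : ((X : ℂ) + 1) ≠ 0 := by exact_mod_cast Nat.succ_ne_zero X
    have h2 : ((X : ℂ) + 1 + 1) ≠ 0 := by exact_mod_cast Nat.succ_ne_zero (X + 1)
    push_cast
    field_simp
    ring

lemma harm_le (X : ℕ) : ∑ n ∈ Icc 1 X, (1 : ℝ) / n ≤ 1 + Real.log X := by
  have h := harmonic_le_one_add_log X
  rw [harmonic_eq_sum_Icc] at h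
  push_cast at h
  refine le_trans (le_of_eq ?_) h
  refine Finset.sum_congr rfl (fun i _ => by rw [one_div])

/-- small means at almost all scales give small logarithmic averages -/
theorem log_avg (a : ℕ → ℂ) (ha : ∀ n, ‖a n‖ ≤ 2) (E : Set ℕ) (hE : LZ E)
    (h : ∀ ε : ℝ, 0 < ε → ∃ N₀ : ℕ, ∀ N : ℕ, N₀ ≤ N → N ∉ E → ‖∑ n ∈ Icc 1 N, a n‖ ≤ ε * N) :
    Tendsto (fun X : ℕ => (∑ n ∈ Icc 1 X, a n / n) / (Real.log X : ℂ)) atTop (𝓝 0) := by
  classical
  rw [tendsto_zero_iff_norm_tendsto_zero]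
  have hS : ∀ N : ℕ, ‖∑ n ∈ Icc 1 N, a n‖ ≤ 2 * N := by
    intro N
    refine (norm_sum_le _ _).trans ((sum_le_sum fun n _ => ha n).trans (le_of_eq ?_))
    rw [sum_const, Nat.card_Icc, nsmul_eq_mul, Nat.add_sub_cancel, mul_comm]
  have hlogT : Tendsto (fun X : ℕ => Real.log X) atTop atTop :=
    Real.tendsto_log_atTop.comp tendsto_natCast_atTop_atTop
  rw [Metric.tendsto_atTop]
  intro η hη
  obtain ⟨N₀, hN₀⟩ := h (η / 4) (by positivity)
  unfold LZ at hE
  have h1 := (hE.const_mul 2).eventually_lt_const (show (2 : ℝ) * 0 < η / 4 by rw [mul_zero]; positivity)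
  have h2 : Tendsto (fun X : ℕ => (2 + η / 4 + 2 * N₀) / Real.log X) atTop (𝓝 0) := tendsto_const_nhds.div_atTop hlogT
  have h3 := h2.eventually_lt_const (show (0 : ℝ) < η / 4 by positivity)
  obtain ⟨X₀, hX₀⟩ := eventually_atTop.1 (h1.and (h3.and (hlogT.eventually_gt_atTop 0)))
  refine ⟨X₀, fun X hX => ?_⟩
  obtain ⟨k1, k2, k3⟩ := hX₀ X hX
  rw [Real.dist_eq, sub_zero, abs_norm, norm_div, Complex.norm_real, Real.norm_eq_abs, abs_of_pos k3]
  have b1 : ‖∑ n ∈ Icc 1 X, a n / n‖ ≤ 2 + ∑ N ∈ Icc 1 X, (η / 4 * (1 / N) + 2 * (if N ∈ E then (1 : ℝ) / N else 0) +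
      if N < N₀ then 2 else 0) := by
    rw [abel]
    refine (norm_add_le _ _).trans (add_le_add ?_ ?_)
    · rw [norm_div]
      have e : ‖(X : ℂ) + 1‖ = X + 1 := by
        have : ((X : ℂ) + 1) = ((X + 1 : ℕ) : ℂ) := by push_cast; rfl
        rw [this, Complex.norm_natCast]
        push_cast
        rfl
      rw [e, div_le_iff₀ (by positivity)]
      have := hS X
      linarith
    · refine (norm_sum_le _ _).trans (sum_le_sum fun N hN => ?_)
      rw [mem_Icc] at hN
      have hN0 : (0 : ℝ) < N := by exact_mod_cast hN.1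
      have e : ‖(N : ℂ) * (N + 1)‖ = N * (N + 1) := by
        have : ((N : ℂ) * (N + 1)) = ((N * (N + 1) : ℕ) : ℂ) := by push_cast; rfl
        rw [this, Complex.norm_natCast]
        push_cast
        rfl
      rw [norm_div, e]
      have h5 : ∀ c : ℝ, 0 ≤ c → ‖∑ n ∈ Icc 1 N, a n‖ ≤ c * N →
          ‖∑ n ∈ Icc 1 N, a n‖ / (N * (N + 1)) ≤ c * (1 / N) := by
        intro c hc hle
        rw [div_le_iff₀ (by positivity)]
        have e2 : c * (1 / (N : ℝ)) * (N * (N + 1)) = c * (N + 1) := by field_simp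
        rw [e2]
        nlinarith
      have h6 : (0 : ℝ) ≤ η / 4 * (1 / N) := by positivity
      by_cases hE' : N ∈ E
      · rw [if_pos hE']
        have h7 := h5 2 (by norm_num) (hS N)
        have h8 : (0 : ℝ) ≤ if N < N₀ then 2 else 0 := by split_ifs <;> norm_num
        linarith
      · rw [if_neg hE', mul_zero, add_zero]
        by_cases hlt : N < N₀
        · rw [if_pos hlt]
          have h7 := h5 2 (by norm_num) (hS N)
          have h9 : (1 : ℝ) / N ≤ 1 := by
            rw [div_le_one hN0]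
            exact_mod_cast hN.1
          linarith
        · rw [if_neg hlt, add_zero]
          exact h5 (η / 4) (by positivity) (hN₀ N (by omega) hE')
  have b2 : ∑ N ∈ Icc 1 X, (η / 4 * (1 / N) + 2 * (if N ∈ E then (1 : ℝ) / N else 0) +
      if N < N₀ then 2 else 0) ≤ η / 4 * (1 + Real.log X) +
        2 * (∑ N ∈ Icc 1 X, if N ∈ E then (1 : ℝ) / N else 0) + 2 * N₀ := by
    rw [sum_add_distrib, sum_add_distrib, ← mul_sum, ← mul_sum]
    have h5 := mul_le_mul_of_nonneg_left (harm_le X) (show (0 : ℝ) ≤ η / 4 by positivity)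
    have h6 : ∑ N ∈ Icc 1 X, (if N < N₀ then (2 : ℝ) else 0) ≤ 2 * N₀ := by
      rw [← sum_filter, sum_const, nsmul_eq_mul]
      have h7 : ((Icc 1 X).filter (fun n => n < N₀)).card ≤ (range N₀).card := card_le_card (fun n hn => by
        rw [mem_filter] at hn
        exact mem_range.2 hn.2)
      rw [card_range] at h7
      have h8 : (((Icc 1 X).filter (fun n => n < N₀)).card : ℝ) ≤ N₀ := by exact_mod_cast h7
      linarith
    linarith
  rw [div_lt_iff₀ k3]
  have b3 : 2 * (∑ N ∈ Icc 1 X, if N ∈ E then (1 : ℝ) / N else 0) < η / 4 * Real.log X := by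
    rw [← mul_div_assoc, div_lt_iff₀ k3] at k1
    exact k1
  have b4 : 2 + η / 4 + 2 * N₀ < η / 4 * Real.log X := by
    rw [div_lt_iff₀ k3] at k2
    exact k2
  have b5 : 0 < η * Real.log X := by positivity
  linarith

end Pool.Agent.Helper896.MO
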